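import Pool.Agent.Helper77.DS.Col
import Pool.Agent.Helper77.DS.St.A

/-! DS-8: chains of families of spaces of functions on words stabilise. -/

namespace Pool.Agent.Helper28.DS

open Pool.Agent.Helper77.DS

noncomputable section

namespace Aux8

variable {S : Type} [Fintype S]

/-- a linear order on the letters -/
abbrev lo (S : Type) [Fintype S] : LinearOrder S :=
  LinearOrder.lift' (Fintype.equivFin S) (Fintype.equivFin S).injective

/-- lexicographic comparison -/
def lt {n : ℕ} (w w' : Fin n → S) : Prop :=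
  ∃ i, (∀ j < i, w j = w' j) ∧ Fintype.equivFin S (w i) < Fintype.equivFin S (w' i)

/-- an injection of words into a well ordered set that reflects `lt` -/
lemma exists_rank (n : ℕ) : ∃ r : (Fin n → S) → ℕ, Function.Injective r ∧
    ∀ w w', lt w w' ↔ r w < r w' := by
  classical
  letI : LinearOrder S := lo S
  letI : Fintype (Lex (Fin n → S)) := inferInstanceAs (Fintype (Fin n → S))
  let e : Lex (Fin n → S) ≃o Fin (Fintype.card (Lex (Fin n → S))) :=
    (Fintype.orderIsoFinOfCardEq (Lex (Fin n → S)) rfl).symm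
  refine ⟨fun w => (e (toLex w)).val, ?_, ?_⟩
  · intro w w' h
    have h1 := e.injective (Fin.ext h)
    exact toLex.injective h1
  · intro w w'
    have h1 : ((e (toLex w)).val < (e (toLex w')).val) ↔ toLex w < toLex w' := by
      rw [← Fin.lt_def]
      exact e.lt_iff_lt
    rw [h1]
    rfl

/-- the rank of words -/
def rk (S : Type) [Fintype S] (n : ℕ) : (Fin n → S) → ℕ := (exists_rank (S := S) n).choose

lemma rk_inj (n : ℕ) : Function.Injective (rk S n) := (exists_rank (S := S) n).choose_spec.1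

lemma rk_lt {n : ℕ} (w w' : Fin n → S) : lt w w' ↔ rk S n w < rk S n w' :=
  (exists_rank (S := S) n).choose_spec.2 w w'

/-- copies of letters preserve the order -/
lemma lt_comp {n n' : ℕ} (s : Fin n' → Fin n) (hs : Function.Surjective s)
    (hfo : ∀ x y : Fin n, x < y → ∃ i, s i = x ∧ ∀ j, s j = y → i < j)
    {w w' : Fin n → S} (h : lt w w') : lt (fun i => w (s i)) (fun i => w' (s i)) := by
  classical
  obtain ⟨x, hx, hlt⟩ := h
  obtain ⟨i0, hi0⟩ := hs x
  have hne : (Finset.univ.filter (fun i => s i = x)).Nonempty :=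
    ⟨i0, Finset.mem_filter.2 ⟨Finset.mem_univ _, hi0⟩⟩
  set i1 := (Finset.univ.filter (fun i => s i = x)).min' hne with hi1
  have h1 : s i1 = x := (Finset.mem_filter.1 (Finset.min'_mem _ hne)).2
  refine ⟨i1, ?_, ?_⟩
  · intro j hj
    apply hx
    rcases lt_trichotomy (s j) x with h2 | h2 | h2
    · exact h2
    · exfalso
      have hm : j ∈ Finset.univ.filter (fun i => s i = x) :=
        Finset.mem_filter.2 ⟨Finset.mem_univ _, h2⟩
      have := Finset.min'_le _ j hm
      exact absurd (lt_of_lt_of_le hj this) (lt_irrefl _)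
    · exfalso
      obtain ⟨i, hi, hi2⟩ := hfo x (s j) h2
      have h3 := hi2 j rfl
      have hm : i ∈ Finset.univ.filter (fun i => s i = x) :=
        Finset.mem_filter.2 ⟨Finset.mem_univ _, hi⟩
      have := Finset.min'_le _ i hm
      exact absurd (lt_of_lt_of_le (h3.trans hj) this) (lt_irrefl _)
  · change Fintype.equivFin S (w (s i1)) < Fintype.equivFin S (w' (s i1))
    rw [h1]; exact hlt

lemma wmap_comp {n n' : ℕ} (s : Fin n' → Fin n) (hs : Function.Surjective s)
    (c : (Fin n → S) → ℂ) (w : Fin n → S) : wmap s c (fun i => w (s i)) = c w := by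
  unfold wmap
  refine (Finset.sum_eq_single w ?_ ?_).trans ?_
  · intro v _ hv
    rw [if_neg]
    intro h
    apply hv
    funext x
    obtain ⟨i, rfl⟩ := hs x
    exact congrFun h i
  · intro h
    exact absurd (@Finset.mem_univ _ (_) w) h
  · rw [if_pos rfl]

lemma wmap_ne {n n' : ℕ} (s : Fin n' → Fin n)
    (c : (Fin n → S) → ℂ) (w' : Fin n' → S) (h : wmap s c w' ≠ 0) :
    ∃ w, (fun i => w (s i)) = w' ∧ c w ≠ 0 := by
  unfold wmap at h
  obtain ⟨w, _, hw⟩ := Finset.exists_ne_zero_of_sum_ne_zero h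
  refine ⟨w, ?_, ?_⟩
  · by_contra h1
    rw [if_neg h1] at hw
    exact hw rfl
  · intro h1
    rw [h1, ite_self] at hw
    exact hw rfl

/-- a nonzero element of a difference of two spaces with minimal leading word -/
lemma exists_min {n : ℕ} (A B : Submodule ℂ ((Fin n → S) → ℂ)) (hAB : A ≤ B) (hne : B ≠ A) :
    ∃ c ∈ B, c ∉ A ∧ ∃ w0, c w0 ≠ 0 ∧ (∀ w, c w ≠ 0 → rk S n w ≤ rk S n w0) ∧
      ∀ c' ∈ B, (∀ w, c' w ≠ 0 → rk S n w < rk S n w0) → c' ∈ A := by
  classical
  have hex : ∃ c, c ∈ B ∧ c ∉ A := by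
    by_contra h
    push Not at h
    exact hne (le_antisymm h hAB)
  let P : ℕ → Prop := fun k => ∃ c, (c ∈ B ∧ c ∉ A) ∧ ∃ w0, c w0 ≠ 0 ∧ rk S n w0 = k ∧
    ∀ w, c w ≠ 0 → rk S n w ≤ rk S n w0
  have hlead : ∀ c, (c ∈ B ∧ c ∉ A) → ∃ w0, c w0 ≠ 0 ∧ ∀ w, c w ≠ 0 → rk S n w ≤ rk S n w0 := by
    intro c hc
    have hc0 : c ≠ 0 := by
      intro h
      apply hc.2
      rw [h]; exact A.zero_mem
    have hsup : (Finset.univ.filter (fun w => c w ≠ 0)).Nonempty := by
      by_contra h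
      rw [Finset.not_nonempty_iff_eq_empty] at h
      apply hc0
      funext w
      by_contra hw
      have : w ∈ Finset.univ.filter (fun w => c w ≠ 0) :=
        Finset.mem_filter.2 ⟨Finset.mem_univ _, hw⟩
      rw [h] at this
      exact absurd this (Finset.notMem_empty _)
    obtain ⟨w0, hw0, hmax⟩ := Finset.exists_max_image _ (rk S n) hsup
    refine ⟨w0, (Finset.mem_filter.1 hw0).2, fun w hw => ?_⟩
    exact hmax w (Finset.mem_filter.2 ⟨Finset.mem_univ _, hw⟩)
  have hP : ∃ k, P k := by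
    obtain ⟨c, hc⟩ := hex
    obtain ⟨w0, h1, h2⟩ := hlead c hc
    exact ⟨_, c, hc, w0, h1, rfl, h2⟩
  obtain ⟨c, hc, w0, h1, h2, h3⟩ := Nat.find_spec hP
  refine ⟨c, hc.1, hc.2, w0, h1, h3, ?_⟩
  intro c' hc' hlt
  by_contra hA
  obtain ⟨w1, h4, h5⟩ := hlead c' ⟨hc', hA⟩
  have h6 := hlt w1 h4
  rw [h2] at h6
  exact Nat.find_min hP h6 ⟨c', ⟨hc', hA⟩, w1, h4, rfl, h5⟩

end Aux8

/-- DS-8 -/
theorem words_acc {S : Type} [Fintype S]
    (L : ℕ → ∀ n : ℕ, ℕ → Submodule ℂ ((Fin (n + 1) → S) → ℂ))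
    (hk : ∀ k n q, L k n q ≤ L (k + 1) n q) (hq : ∀ k n q, L k n q ≤ L k n (q + 1))
    (hs : ∀ (k n n' q : ℕ) (s : Fin (n' + 1) → Fin (n + 1)), Function.Surjective s →
      ∀ c ∈ L k n q, wmap s c ∈ L k n' q) :
    ∃ N, ∀ k ≥ N, ∀ n q, L k n q = L N n q := by
  classical
  by_contra hcon
  push Not at hcon
  have hkm : ∀ n q, Monotone (fun k => L k n q) := fun n q =>
    monotone_nat_of_le_succ (fun k => hk k n q)
  have hqm : ∀ k n, Monotone (fun q => L k n q) := fun k n =>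
    monotone_nat_of_le_succ (fun q => hq k n q)
  choose kf hkf nf qf hne using hcon
  have hgt : ∀ N, N < kf N := by
    intro N
    rcases (hkf N).lt_or_eq with h | h
    · exact h
    · exfalso
      apply hne N
      rw [← h]
  have hmin := fun N => Aux8.exists_min (L N (nf N) (qf N)) (L (kf N) (nf N) (qf N))
    (hkm _ _ (hkf N)) (hne N)
  choose c hcB hcA w0 hw0 hmax hmn using hmin
  -- the increasing sequence
  let Nq : ℕ → ℕ := fun j => Nat.rec 0 (fun _ N => kf N) j
  have hNs : ∀ j, Nq (j + 1) = kf (Nq j) := fun j => rfl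
  have hNm : StrictMono Nq := strictMono_nat_of_lt_succ (fun j => by
    rw [hNs]; exact hgt _)
  obtain ⟨a, b, hab, hqab, s, hsurj, hfo, hw⟩ := words_wqo (fun j => nf (Nq j))
    (fun j => qf (Nq j)) (fun j => w0 (Nq j))
  have hw' : w0 (Nq b) = fun i => w0 (Nq a) (s i) := funext hw
  -- the image of `c a`
  have hin : wmap s (c (Nq a)) ∈ L (Nq b) (nf (Nq b)) (qf (Nq b)) := by
    have h1 := hs (kf (Nq a)) _ _ (qf (Nq a)) s hsurj _ (hcB (Nq a))
    have h2 : L (kf (Nq a)) (nf (Nq b)) (qf (Nq a)) ≤ L (Nq b) (nf (Nq b)) (qf (Nq a)) := by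
      apply hkm
      rw [← hNs]
      exact hNm.monotone hab
    exact hqm _ _ hqab (h2 h1)
  have hval : wmap s (c (Nq a)) (w0 (Nq b)) = c (Nq a) (w0 (Nq a)) := by
    rw [hw']
    exact Aux8.wmap_comp s hsurj _ _
  have hrk : ∀ w, wmap s (c (Nq a)) w ≠ 0 → Aux8.rk S _ w ≤ Aux8.rk S _ (w0 (Nq b)) := by
    intro w h
    obtain ⟨v, hv, hcv⟩ := Aux8.wmap_ne s _ w h
    rcases (hmax (Nq a) v hcv).lt_or_eq with h1 | h1
    · rw [← hv, hw']
      exact ((Aux8.rk_lt _ _).1 (Aux8.lt_comp s hsurj hfo ((Aux8.rk_lt _ _).2 h1))).le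
    · have h2 := Aux8.rk_inj _ h1
      rw [← hv, hw', h2]
  set lam : ℂ := c (Nq b) (w0 (Nq b)) / c (Nq a) (w0 (Nq a)) with hlam
  have hkb : L (Nq b) (nf (Nq b)) (qf (Nq b)) ≤ L (kf (Nq b)) (nf (Nq b)) (qf (Nq b)) :=
    hkm _ _ (hkf (Nq b))
  have hA := hmn (Nq b) (c (Nq b) - lam • wmap s (c (Nq a)))
    (Submodule.sub_mem _ (hcB (Nq b)) (Submodule.smul_mem _ _ (hkb hin))) (by
    intro w hwne
    have hne0 : w ≠ w0 (Nq b) := by
      intro h
      apply hwne
      rw [h, Pi.sub_apply, Pi.smul_apply, hval, smul_eq_mul, hlam,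
        div_mul_cancel₀ _ (hw0 (Nq a)), sub_self]
    have hle : Aux8.rk S _ w ≤ Aux8.rk S _ (w0 (Nq b)) := by
      by_contra h
      push Not at h
      apply hwne
      have h1 : c (Nq b) w = 0 := by
        by_contra h2
        exact absurd (hmax (Nq b) w h2) (not_le.2 h)
      have h3 : wmap s (c (Nq a)) w = 0 := by
        by_contra h2
        exact absurd (hrk w h2) (not_le.2 h)
      rw [Pi.sub_apply, Pi.smul_apply, h1, h3, smul_zero, sub_zero]
    exact lt_of_le_of_ne hle (fun h => hne0 (Aux8.rk_inj _ h)))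
  apply hcA (Nq b)
  have := Submodule.add_mem _ hA (Submodule.smul_mem _ lam hin)
  rwa [sub_add_cancel] at this

end

end Pool.Agent.Helper28.DS
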